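import Mathlib
import Pool.Agent.Results.MP_fb02e9_lc.Equality

/-! # Everywhere non-meager independent families -/

set_option autoImplicit false

open Set Filter Topology Cardinal

namespace Pool.Agent.Y973.NM

open Pool.Agent.Results.MP_fb02e9_lc.Equality

/-- the basic open set of the points which agree with `y` on `E` -/
def Cyl (E : Finset ℕ) (y : Cantor) : Set Cantor := {x | ∀ i ∈ E, x i = y i}

/-- non-meager in every nonempty open set -/
def Everywhere (X : Set Cantor) : Prop := ∀ (E : Finset ℕ) (y : Cantor), ¬ IsMeagre (X ∩ Cyl E y)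

lemma Everywhere.not_isMeagre {X : Set Cantor} (hX : Everywhere X) : ¬ IsMeagre X := fun h =>
  hX ∅ (fun _ => false) (h.mono inter_subset_left)

/-! ### Finite modifications -/

/-- flip the coordinates in `T` -/
def flip (T : Finset ℕ) (x : Cantor) : Cantor := fun i => if i ∈ T then !(x i) else x i

lemma flip_flip (T : Finset ℕ) (x : Cantor) : flip T (flip T x) = x := by
  funext i
  simp only [flip]
  split_ifs <;> simp

lemma continuous_flip (T : Finset ℕ) : Continuous (flip T) := by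
  refine continuous_pi fun i => ?_
  by_cases h : i ∈ T
  · have : (fun x : Cantor => flip T x i) = fun x => !(x i) := by
      funext x
      simp [flip, h]
    rw [this]
    exact (continuous_of_discreteTopology (f := fun b : Bool => !b)).comp (continuous_apply i)
  · have : (fun x : Cantor => flip T x i) = fun x => x i := by
      funext x
      simp [flip, h]
    rw [this]
    exact continuous_apply i

/-- `flip T` as a homeomorphism -/
def flipHomeo (T : Finset ℕ) : Cantor ≃ₜ Cantor where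
  toFun := flip T
  invFun := flip T
  left_inv := flip_flip T
  right_inv := flip_flip T
  continuous_toFun := continuous_flip T
  continuous_invFun := continuous_flip T

/-- the finite modifications of the points of `X` -/
def fin (X : Set Cantor) : Set Cantor := ⋃ T : Finset ℕ, flip T '' X

lemma subset_fin (X : Set Cantor) : X ⊆ fin X := by
  intro x hx
  refine mem_iUnion.2 ⟨∅, x, hx, ?_⟩
  funext i
  simp [flip]

lemma mk_fin {X : Set Cantor} (hX : X.Infinite) : #(fin X) = #X := by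
  refine le_antisymm ?_ (mk_le_mk_of_subset (subset_fin X))
  have hinf : Infinite X := hX.to_subtype
  have h1 := mk_iUnion_le (fun T : Finset ℕ => flip T '' X)
  refine h1.trans ?_
  have h2 : (⨆ T : Finset ℕ, #(flip T '' X)) ≤ #X := ciSup_le' fun T => mk_image_le
  refine (mul_le_mul' le_rfl h2).trans ?_
  have h3 : #(Finset ℕ) ≤ #X := by
    rw [mk_finset_of_infinite]
    simp
  refine (mul_le_mul' h3 le_rfl).trans ?_
  rw [mul_eq_self (aleph0_le_mk X)]

lemma everywhere_fin {X : Set Cantor} (hX : ¬ IsMeagre X) : Everywhere (fin X) := by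
  classical
  intro E y hm
  apply hX
  have hsub : X ⊆ ⋃ T ∈ (E.powerset : Set (Finset ℕ)), flip T ⁻¹' (fin X ∩ Cyl E y) := by
    intro x hx
    refine mem_biUnion (x := E.filter fun i => x i ≠ y i) ?_ ?_
    · rw [Finset.mem_coe, Finset.mem_powerset]
      exact Finset.filter_subset _ _
    · refine ⟨mem_iUnion.2 ⟨_, x, hx, rfl⟩, ?_⟩
      intro i hi
      show (if i ∈ E.filter (fun i => x i ≠ y i) then !(x i) else x i) = y i
      by_cases h : x i = y i
      · rw [if_neg (by simp [h])]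
        exact h
      · rw [if_pos (by simp [h, hi])]
        cases hx' : x i <;> cases hy' : y i <;> simp_all
  refine IsMeagre.mono hsub ?_
  refine isMeagre_biUnion (Finset.countable_toSet _) fun T _ => ?_
  exact hm.preimage_of_isOpenMap (continuous_flip T) (flipHomeo T).isOpenMap

/-! ### The family -/

lemma key {H : Set (Set ℕ)}
    (hH2 : ∀ F : Finset (Set ℕ), (F : Set (Set ℕ)) ⊆ H → {n | ∀ h ∈ F, n ∈ h}.Infinite)
    (r : (Cantor × Set ℕ) ↪ Cantor) (P Q : Finset (Cantor × Set ℕ)) (hP : ∀ p ∈ P, p.2 ∈ H)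
    (hQ : ∀ p ∈ Q, p.2 ∈ H) (hPQ : Disjoint P Q) :
    {i : ℕ | (∀ p ∈ P, i ∈ code p.1 p.2 (r p)) ∧ ∀ p ∈ Q, i ∉ code p.1 p.2 (r p)}.Infinite := by
  classical
  have h1 := hH2 ((P ∪ Q).image Prod.snd) (by
    intro h hh
    obtain ⟨p, hp, rfl⟩ := Finset.mem_image.1 (Finset.mem_coe.1 hh)
    rcases Finset.mem_union.1 hp with hp | hp
    · exact hP p hp
    · exact hQ p hp)
  -- a level which separates the codes
  have h2 : ∃ N, ∀ p ∈ P, ∀ q ∈ Q, ∃ t < N, r p t ≠ r q t := by
    have h3 : ∀ p : Cantor × Set ℕ, ∀ q : Cantor × Set ℕ, p ≠ q → ∃ t, r p t ≠ r q t := by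
      intro p q hpq
      by_contra hcon
      push Not at hcon
      exact hpq (r.injective (funext hcon))
    have h4 : ∀ p q : Cantor × Set ℕ, ∃ t, p ≠ q → r p t ≠ r q t := by
      intro p q
      by_cases hpq : p = q
      · exact ⟨0, fun h => absurd hpq h⟩
      · obtain ⟨t, ht⟩ := h3 p q hpq
        exact ⟨t, fun _ => ht⟩
    choose t ht using h4
    refine ⟨(∑ p ∈ P, ∑ q ∈ Q, t p q) + 1, fun p hp q hq => ⟨t p q, ?_, ht p q ?_⟩⟩
    · have h5 : t p q ≤ ∑ q ∈ Q, t p q :=
        Finset.single_le_sum (f := fun q => t p q) (fun _ _ => Nat.zero_le _) hq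
      have h6 : (∑ q ∈ Q, t p q) ≤ ∑ p ∈ P, ∑ q ∈ Q, t p q :=
        Finset.single_le_sum (f := fun p => ∑ q ∈ Q, t p q) (fun _ _ => Nat.zero_le _) hp
      omega
    · rintro rfl
      exact Finset.disjoint_left.1 hPQ hp hq
  obtain ⟨N, hN⟩ := h2
  have h5 : ({n | ∀ h ∈ (P ∪ Q).image Prod.snd, n ∈ h} \ {n | n < N}).Infinite :=
    h1.sdiff (finite_lt_nat N)
  let pt : ℕ → Idx := fun n => ⟨n, fun s => decide (∃ p ∈ P, s = fun t : Fin n => r p t)⟩
  have hpt : Function.Injective (fun n => en.symm (pt n)) := by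
    intro n n' h
    have h' := en.symm.injective h
    exact (Sigma.mk.inj_iff.1 h').1
  refine (h5.image hpt.injOn).mono ?_
  rintro _ ⟨n, ⟨hn1, hn2⟩, rfl⟩
  have hn3 : N ≤ n := not_lt.1 hn2
  have e1 : en (en.symm (pt n)) = pt n := en.apply_symm_apply _
  constructor
  · intro p hp
    have hmem : n ∈ p.2 := hn1 _ (Finset.mem_image_of_mem _ (Finset.mem_union_left _ hp))
    left
    rw [e1]
    refine ⟨hmem, ?_⟩
    show decide _ = true
    rw [decide_eq_true_iff]
    exact ⟨p, hp, rfl⟩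
  · intro q hq hcon
    have hmem : n ∈ q.2 := hn1 _ (Finset.mem_image_of_mem _ (Finset.mem_union_right _ hq))
    rcases hcon with ⟨_, h⟩ | ⟨h, _⟩
    · rw [e1] at h
      have h' : decide (∃ p ∈ P, (fun t : Fin n => r q t) = fun t : Fin n => r p t) = true := h
      rw [decide_eq_true_iff] at h'
      obtain ⟨p, hp, hpq⟩ := h'
      obtain ⟨t, ht, hne⟩ := hN p hp q hq
      exact hne (congrFun hpq ⟨t, by omega⟩).symm
    · rw [e1] at h
      exact h hmem

/-- **Main construction.** -/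
theorem exists_everywhere_family {X : Set Cantor} (hX : Everywhere X) :
    ∃ A : Set (Set ℕ), IsIndependent A ∧ Everywhere (charSet A) ∧ #A = #X := by
  classical
  have hXm := hX.not_isMeagre
  obtain ⟨H₀, hH1, hH2, hH3⟩ := exists_base hXm
  have hr : Nonempty ((Cantor × Set ℕ) ↪ Cantor) := by
    rw [← Cardinal.le_def]
    simp
  obtain ⟨r⟩ := hr
  have hXinf : Infinite X := (infinite_of_not_isMeagre hXm).to_subtype
  let a : Cantor × Set ℕ → Set ℕ := fun p => code p.1 p.2 (r p)
  -- all final segments of the members of the filter base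
  let H : Set (Set ℕ) := (fun p : Set ℕ × ℕ => p.1 \ Iio p.2) '' (H₀ ×ˢ (Set.univ : Set ℕ))
  have hHle : #H ≤ #X := by
    refine mk_image_le.trans ?_
    rw [mk_setProd]
    refine (mul_le_mul' hH1 ?_).trans (mul_eq_self (aleph0_le_mk X)).le
    rw [mk_univ, mk_nat]
    exact aleph0_le_mk X
  have hHinf : ∀ F : Finset (Set ℕ), (F : Set (Set ℕ)) ⊆ H → {n | ∀ h ∈ F, n ∈ h}.Infinite := by
    intro F hF
    obtain ⟨P, hP, rfl⟩ := Finset.subset_set_image_iff.1 hF
    have h1 := hH2 (P.image Prod.fst) (by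
      intro h hh
      obtain ⟨p, hp, rfl⟩ := Finset.mem_image.1 (Finset.mem_coe.1 hh)
      exact (hP (Finset.mem_coe.2 hp)).1)
    have h2 := h1.sdiff (finite_lt_nat (∑ p ∈ P, p.2))
    refine h2.mono ?_
    rintro n ⟨hn1, hn2⟩ h hh
    obtain ⟨p, hp, rfl⟩ := Finset.mem_image.1 hh
    refine ⟨hn1 _ (Finset.mem_image_of_mem _ hp), ?_⟩
    have h3 : p.2 ≤ ∑ p ∈ P, p.2 :=
      Finset.single_le_sum (f := fun p : Set ℕ × ℕ => p.2) (fun _ _ => Nat.zero_le _) hp
    intro h4
    exact hn2 (lt_of_lt_of_le (mem_Iio.1 h4) h3)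
  have hkey := key hHinf r
  let A : Set (Set ℕ) := a '' (X ×ˢ H)
  have hAle : #A ≤ #X := by
    refine mk_image_le.trans ?_
    rw [mk_setProd]
    refine (mul_le_mul' le_rfl hHle).trans ?_
    rw [mul_eq_self (aleph0_le_mk X)]
  have hH0 : ∃ h, h ∈ H := by
    obtain ⟨h, hh, -⟩ := hH3 id strictMono_id
    exact ⟨_, ⟨(h, 0), mk_mem_prod hh (mem_univ 0), rfl⟩⟩
  obtain ⟨h0, hh0⟩ := hH0
  have hAge : #X ≤ #A := by
    have hinj : Function.Injective (fun x : X => (⟨a (x.1, h0), mem_image_of_mem _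
        (mk_mem_prod x.2 hh0)⟩ : A)) := by
      intro x x' h
      by_contra hne
      have h1 : a (x.1, h0) = a (x'.1, h0) := congrArg Subtype.val h
      have h2 := hkey {(x.1, h0)} {(x'.1, h0)} (by simpa using hh0) (by simpa using hh0) (by
        rw [Finset.disjoint_singleton_left, Finset.mem_singleton]
        intro h3
        exact hne (Subtype.ext (congrArg Prod.fst h3)))
      obtain ⟨i, hi1, hi2⟩ := h2.nonempty
      have h3 : i ∈ a (x.1, h0) := hi1 _ (Finset.mem_singleton_self _)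
      have h4 : i ∉ a (x'.1, h0) := hi2 _ (Finset.mem_singleton_self _)
      exact h4 (h1 ▸ h3)
    exact mk_le_of_injective hinj
  have hsel : ∀ F : Finset (Set ℕ), (F : Set (Set ℕ)) ⊆ A →
      ∃ P : Finset (Cantor × Set ℕ), P.image a = F ∧ ∀ p ∈ P, p.2 ∈ H := by
    intro F hF
    obtain ⟨P, hP, hPF⟩ := Finset.subset_set_image_iff.1 hF
    exact ⟨P, hPF, fun p hp => (hP hp).2⟩
  refine ⟨A, ⟨?_, ?_⟩, ?_, le_antisymm hAle hAge⟩
  · rintro _ ⟨p, hp, rfl⟩
    have := hkey {p} ∅ (by simpa using hp.2) (by simp) (by simp)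
    refine this.mono ?_
    intro i hi
    exact hi.1 p (by simp)
  · intro F G hF hG hFG _
    obtain ⟨P, rfl, hP⟩ := hsel F hF
    obtain ⟨Q, rfl, hQ⟩ := hsel G hG
    have hPQ : Disjoint P Q := by
      rw [Finset.disjoint_left]
      intro p hp hq
      exact Finset.disjoint_left.1 hFG (Finset.mem_image_of_mem _ hp) (Finset.mem_image_of_mem _ hq)
    refine (hkey P Q hP hQ hPQ).mono ?_
    rintro i ⟨h1, h2⟩
    refine ⟨?_, ?_⟩
    · intro b hb
      obtain ⟨p, hp, rfl⟩ := Finset.mem_image.1 hb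
      exact h1 p hp
    · intro b hb
      obtain ⟨p, hp, rfl⟩ := Finset.mem_image.1 hb
      exact h2 p hp
  · intro E y₀ hmea
    obtain ⟨j, z, hj, hz⟩ := exists_chopped hmea (fun i => (en i).1) finite_level
    obtain ⟨h₁, hh₁, hmiss₁⟩ := hH3 j hj
    set m₀ : ℕ := ∑ i ∈ E, (en i).1 + 1 with hm₀
    set h : Set ℕ := h₁ \ Iio m₀ with hdef
    have hh : h ∈ H := ⟨(h₁, m₀), mk_mem_prod hh₁ (mem_univ m₀), rfl⟩
    have hmiss : ∀ m, ∃ k, m ≤ k ∧ ∀ n, j k ≤ n → n < j (k + 1) → n ∉ h := by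
      intro m
      obtain ⟨k, hk, hk2⟩ := hmiss₁ m
      exact ⟨k, hk, fun n h1 h2 h3 => hk2 n h1 h2 h3.1⟩
    have hlow : ∀ i ∈ E, (en i).1 ∉ h := by
      intro i hi h3
      have h1 : (en i).1 ≤ ∑ i ∈ E, (en i).1 :=
        Finset.single_le_sum (f := fun i => (en i).1) (fun _ _ => Nat.zero_le _) hi
      exact h3.2 (mem_Iio.2 (by omega))
    have hfin : ∀ k, {i : ℕ | j k ≤ (en i).1 ∧ (en i).1 < j (k + 1)}.Finite :=
      fun k => (finite_level (j (k + 1))).subset (fun i hi => hi.2)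
    have hres := residual_match (fun k => (hfin k).toFinset) (fun _ => z)
      (fun k => ∀ n, j k ≤ n → n < j (k + 1) → n ∉ h) (by
        intro E m
        obtain ⟨k, hk, hk2⟩ := hmiss (m + ∑ i ∈ E, (en i).1 + 1)
        refine ⟨k, by omega, hk2, ?_⟩
        rw [Finset.disjoint_left]
        intro i hi hiE
        simp only [Finite.mem_toFinset, mem_ofPred_eq] at hi
        have h1 : (en i).1 ≤ ∑ i ∈ E, (en i).1 :=
          Finset.single_le_sum (f := fun i => (en i).1) (fun _ _ => Nat.zero_le _) hiE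
        have h2 := hj.id_le k
        simp only [id] at h2
        omega)
    obtain ⟨x, ⟨hxX, hxE⟩, hx⟩ := exists_mem_of_residual (hX E y₀) hres
    let y : Cantor := fun i => decide (i ∈ a (x, h))
    have hyi : ∀ i, (en i).1 ∉ h → y i = x i := by
      intro i h4
      have h5 : i ∈ a (x, h) ↔ x i = true := by
        show (((en i).1 ∈ h ∧ _) ∨ ((en i).1 ∉ h ∧ x i = true)) ↔ _
        simp [h4]
      by_cases h6 : x i = true
      · simp [y, h5, h6]
      · simp only [y, h5, h6]
        simp at h6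
        simp
    have hyA : y ∈ charSet A := by
      have : {n : ℕ | y n = true} = a (x, h) := by ext n; simp [y]
      show {n : ℕ | y n = true} ∈ A
      rw [this]
      exact mem_image_of_mem _ ⟨hxX, hh⟩
    have hyE : y ∈ Cyl E y₀ := by
      intro i hi
      rw [hyi i (hlow i hi)]
      exact hxE i hi
    refine hz y ?_ ⟨hyA, hyE⟩
    intro m
    obtain ⟨k, hk, hk2, hk3⟩ := hx m
    refine ⟨k, hk, ?_⟩
    intro i h1 h2
    have h3 : x i = z i := hk3 i (by simp only [Finite.mem_toFinset, mem_ofPred_eq]; exact ⟨h1, h2⟩)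
    rw [← h3]
    exact hyi i (hk2 _ h1 h2)

/-- For every cardinal between `non(meager)` and the continuum there is an everywhere non-meager
set of that cardinality. -/
lemma exists_everywhere (κ : Cardinal.{0}) (h1 : nonMeager ≤ κ) (h2 : κ ≤ 𝔠) :
    ∃ X : Set Cantor, Everywhere X ∧ #X = κ := by
  have hne : {κ | ∃ X : Set Cantor, ¬ IsMeagre X ∧ #X = κ}.Nonempty := by
    refine ⟨_, univ, ?_, rfl⟩
    exact not_isMeagre_of_mem_residual univ_mem
  obtain ⟨X₀, hX₀, hX₀c⟩ : ∃ X : Set Cantor, ¬ IsMeagre X ∧ #X = nonMeager := csInf_mem hne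
  have hinf₀ : X₀.Infinite := infinite_of_not_isMeagre hX₀
  have hκ : ℵ₀ ≤ κ := by
    refine le_trans ?_ h1
    rw [← hX₀c]
    have : Infinite X₀ := hinf₀.to_subtype
    exact aleph0_le_mk X₀
  have hC : #Cantor = 𝔠 := by simp
  obtain ⟨Y, hY⟩ : ∃ Y : Set Cantor, #Y = κ := by
    rw [← Cardinal.le_mk_iff_exists_set, hC]
    exact h2
  have hXY : #(X₀ ∪ Y : Set Cantor) = κ := by
    refine le_antisymm ?_ ?_
    · refine (mk_union_le X₀ Y).trans ?_
      rw [hX₀c, hY]
      exact (add_le_add_left h1 κ).trans (by rw [add_eq_self hκ])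
    · rw [← hY]
      exact mk_le_mk_of_subset subset_union_right
  have hnm : ¬ IsMeagre (X₀ ∪ Y) := fun h => hX₀ (h.mono subset_union_left)
  exact ⟨fin (X₀ ∪ Y), everywhere_fin hnm, (mk_fin (hinf₀.mono subset_union_left)).trans hXY⟩

end Pool.Agent.Y973.NM
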